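import Mathlib
import Pool.Agent.Mg.F5cfbf6.G93f241

open Classical

namespace Pool.Agent.Results.MP_6a6613_co.Superlinear

theorem result (C : ℕ) :
    ∃ d m : ℕ, 2 ≤ d ∧
      ∃ K : Geometry.SimplicialComplex ℝ (EuclideanSpace ℝ (Fin m)),
        K.faces.Finite ∧
        Nonempty (K.space ≃ₜ Metric.sphere (0 : EuclideanSpace ℝ (Fin d)) 1) ∧
        (∀ s ∈ K.facets, s.card = d) ∧
        (SimpleGraph.fromRel (fun s t : K.facets => (s.1 ∩ t.1).card + 1 = d)).Connected ∧
        C * K.vertices.ncard ≤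
          (SimpleGraph.fromRel (fun s t : K.facets => (s.1 ∩ t.1).card + 1 = d)).diam :=
  Pool.Agent.MP_6a6613_co.Strong.targetC C

end Pool.Agent.Results.MP_6a6613_co.Superlinear
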